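import Pool.Agent.Q255.IR.Stm
import Pool.Agent.Y285.HH.Kolm

set_option autoImplicit false

/-! Project IR (helper255), job TILT: independent tilted signs. -/

namespace Pool.Agent.Q190.IR.Tilt

open Filter Topology MeasureTheory ProbabilityTheory Pool.Agent.Q255.IC Pool.Agent.Q255.IR
open scoped ENNReal

/-! ### the hyperbolic tangent -/

theorem deriv_tanh (x : ℝ) : HasDerivAt Real.tanh (1 - Real.tanh x ^ 2) x := by
  have h : HasDerivAt (fun y => Real.sinh y / Real.cosh y)
      ((Real.cosh x * Real.cosh x - Real.sinh x * Real.sinh x) / Real.cosh x ^ 2) x :=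
    (Real.hasDerivAt_sinh x).div (Real.hasDerivAt_cosh x) (Real.cosh_pos x).ne'
  have e1 : (fun y => Real.sinh y / Real.cosh y) = Real.tanh := by
    funext y
    rw [Real.tanh_eq_sinh_div_cosh]
  rw [e1] at h
  convert h using 1
  rw [Real.tanh_eq_sinh_div_cosh]
  have := (Real.cosh_pos x).ne'
  field_simp

theorem deriv_F (x : ℝ) : HasDerivAt (fun y => Real.log (Real.cosh y) - y * Real.tanh y + y ^ 2 / 2)
    (x * Real.tanh x ^ 2) x := by
  have h1 : HasDerivAt (fun y => Real.log (Real.cosh y)) (Real.tanh x) x := by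
    have := (Real.hasDerivAt_cosh x).log (Real.cosh_pos x).ne'
    rw [Real.tanh_eq_sinh_div_cosh]
    exact this
  have h2 := (hasDerivAt_id x).mul (deriv_tanh x)
  have h3 : HasDerivAt (fun y : ℝ => y ^ 2 / 2) x x := by
    have h := (hasDerivAt_pow 2 x).div_const 2
    have e : ((2 : ℕ) : ℝ) * x ^ (2 - 1) / 2 = x := by
      norm_num
    rwa [e] at h
  have h4 := (h1.sub h2).add h3
  have e : x * Real.tanh x ^ 2 = Real.tanh x - (1 * Real.tanh x + id x * (1 - Real.tanh x ^ 2)) + x := by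
    show x * Real.tanh x ^ 2 = Real.tanh x - (1 * Real.tanh x + x * (1 - Real.tanh x ^ 2)) + x
    ring
  rw [e]
  exact h4

theorem entro {x : ℝ} : x * Real.tanh x - Real.log (Real.cosh x) ≤ x ^ 2 / 2 := by
  have key : ∀ y : ℝ, 0 ≤ y → y * Real.tanh y - Real.log (Real.cosh y) ≤ y ^ 2 / 2 := by
    intro y hy
    have hm : MonotoneOn (fun y => Real.log (Real.cosh y) - y * Real.tanh y + y ^ 2 / 2) (Set.Ici 0) := by
      apply monotoneOn_of_deriv_nonneg (convex_Ici 0)
      · exact fun z _ => (deriv_F z).continuousAt.continuousWithinAt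
      · exact fun z _ => (deriv_F z).differentiableAt.differentiableWithinAt
      · intro z hz
        rw [(deriv_F z).deriv]
        rw [interior_Ici] at hz
        have : 0 < z := hz
        positivity
    have h := hm (Set.self_mem_Ici (a := (0 : ℝ))) (Set.mem_Ici.2 hy) hy
    simp only [Real.cosh_zero, Real.log_one, Real.tanh_zero] at h
    linarith
  rcases le_total 0 x with h | h
  · exact key x h
  · have := key (-x) (by linarith)
    rw [Real.tanh_neg, Real.cosh_neg] at this
    linarith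

theorem binEnt (x : ℝ) : Real.log 2 - Real.binEntropy ((1 + Real.tanh x) / 2) ≤ x ^ 2 / 2 := by
  have hc := Real.cosh_pos x
  have e1 : (1 + Real.tanh x) / 2 = Real.exp x / (2 * Real.cosh x) := by
    rw [Real.tanh_eq_sinh_div_cosh]
    have h1 : Real.cosh x + Real.sinh x = Real.exp x := Real.cosh_add_sinh x
    rw [← h1]
    field_simp
  have e2 : 1 - (1 + Real.tanh x) / 2 = Real.exp (-x) / (2 * Real.cosh x) := by
    rw [Real.tanh_eq_sinh_div_cosh]
    have h1 : Real.cosh x - Real.sinh x = Real.exp (-x) := Real.cosh_sub_sinh x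
    rw [← h1]
    field_simp
    ring
  have l1 : Real.log ((1 + Real.tanh x) / 2) = x - (Real.log 2 + Real.log (Real.cosh x)) := by
    rw [e1, Real.log_div (Real.exp_pos x).ne' (by positivity), Real.log_exp, Real.log_mul (by norm_num) hc.ne']
  have l2 : Real.log (1 - (1 + Real.tanh x) / 2) = -x - (Real.log 2 + Real.log (Real.cosh x)) := by
    rw [e2, Real.log_div (Real.exp_pos (-x)).ne' (by positivity), Real.log_exp,
      Real.log_mul (by norm_num) hc.ne']
  rw [Real.binEntropy_eq_negMulLog_add_negMulLog_one_sub]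
  unfold Real.negMulLog
  rw [l1, l2]
  have := entro (x := x)
  linarith

/-! ### the law -/

/-- the law of one sign -/
noncomputable def one (u : ℝ) : Measure Bool :=
  ENNReal.ofReal ((1 - u) / 2) • Measure.dirac true + ENNReal.ofReal ((1 + u) / 2) • Measure.dirac false

/-- the weights of one sign -/
noncomputable def wgt (u : ℝ) (b : Bool) : ℝ := if b then (1 - u) / 2 else (1 + u) / 2

theorem one_singleton {u : ℝ} (b : Bool) : one u {b} = ENNReal.ofReal (wgt u b) := by
  unfold one wgt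
  rw [Measure.add_apply, Measure.smul_apply, Measure.smul_apply]
  cases b <;> simp

theorem wgt_nonneg {u : ℝ} (h : |u| ≤ 1) (b : Bool) : 0 ≤ wgt u b := by
  have := abs_le.1 h
  unfold wgt
  split_ifs <;> linarith [this.1, this.2]

theorem one_prob {u : ℝ} (h : |u| ≤ 1) : IsProbabilityMeasure (one u) := by
  have h' := abs_le.1 h
  refine ⟨?_⟩
  unfold one
  rw [Measure.add_apply, Measure.smul_apply, Measure.smul_apply, measure_univ, measure_univ, smul_eq_mul,
    smul_eq_mul, mul_one, mul_one, ← ENNReal.ofReal_add (by linarith [h'.1, h'.2]) (by linarith [h'.1, h'.2])]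
  have : (1 - u) / 2 + (1 + u) / 2 = 1 := by ring
  rw [this, ENNReal.ofReal_one]

theorem sum_wgt {n : ℕ} (u : Fin n → ℝ) : ∑ s : Fin n → Bool, ∏ k, wgt (u k) (s k) = 1 := by
  have h1 : ∀ k, ∑ b : Bool, wgt (u k) b = 1 := by
    intro k
    rw [Fintype.sum_bool]
    unfold wgt
    simp
    ring
  have h2 := Finset.prod_univ_sum (fun _ : Fin n => (Finset.univ : Finset Bool)) (fun k b => wgt (u k) b)
  rw [Fintype.piFinset_univ] at h2
  rw [← h2, Finset.prod_congr rfl (fun k _ => h1 k)]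
  simp

theorem ent_wgt : ∀ (n : ℕ) (u : Fin n → ℝ), ∑ s : Fin n → Bool, Real.negMulLog (∏ k, wgt (u k) (s k)) =
    ∑ k, Real.binEntropy ((1 + u k) / 2) := by
  intro n
  induction n with
  | zero => intro u; simp
  | succ n ih =>
    intro u
    have e1 : ∑ s : Fin (n + 1) → Bool, Real.negMulLog (∏ k, wgt (u k) (s k)) =
        ∑ b : Bool, ∑ s : Fin n → Bool, Real.negMulLog (wgt (u 0) b * ∏ k : Fin n, wgt (u k.succ) (s k)) := by
      rw [← (Fin.consEquiv (fun _ => Bool)).sum_comp, Fintype.sum_prod_type]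
      refine Finset.sum_congr rfl (fun b _ => Finset.sum_congr rfl (fun s _ => ?_))
      rw [Fin.prod_univ_succ]
      simp [Fin.consEquiv]
    rw [e1]
    have e2 : ∀ b : Bool, ∑ s : Fin n → Bool, Real.negMulLog (wgt (u 0) b * ∏ k : Fin n, wgt (u k.succ) (s k)) =
        Real.negMulLog (wgt (u 0) b) + wgt (u 0) b * (∑ k : Fin n, Real.binEntropy ((1 + u k.succ) / 2)) := by
      intro b
      rw [← ih (fun k => u k.succ), Finset.mul_sum, ← mul_one (Real.negMulLog (wgt (u 0) b)),
        ← sum_wgt (fun k : Fin n => u k.succ), Finset.mul_sum, ← Finset.sum_add_distrib]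
      refine Finset.sum_congr rfl (fun s _ => ?_)
      rw [Real.negMulLog_mul]
      ring
    rw [Fintype.sum_bool, e2, e2, Fin.sum_univ_succ, Real.binEntropy_eq_negMulLog_add_negMulLog_one_sub ((1 + u 0) / 2)]
    have e3 : 1 - (1 + u 0) / 2 = (1 - u 0) / 2 := by ring
    rw [e3]
    unfold wgt
    simp only [if_true, Bool.false_eq_true, if_false]
    ring

theorem law {u : ℕ → ℝ} (h : ∀ k, |u k| ≤ 1) (n : ℕ) (s : Fin n → Bool) :
    (Measure.infinitePi (fun k : ℕ => one (u k))).real {ω | ∀ k : Fin n, ω k = s k} =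
      ∏ k : Fin n, wgt (u k) (s k) := by
  have := fun k => one_prob (h k)
  classical
  let t : ℕ → Set Bool := fun i => if h : i < n then {s ⟨i, h⟩} else Set.univ
  have e1 : {ω : ℕ → Bool | ∀ k : Fin n, ω k = s k} = Set.pi (Finset.range n : Set ℕ) t := by
    ext ω
    simp only [Set.mem_ofPred_eq, Set.mem_pi, Finset.coe_range, Set.mem_Iio, t]
    constructor
    · intro h i hi
      rw [dif_pos hi]
      exact h ⟨i, hi⟩
    · intro h k
      have := h k k.2
      rw [dif_pos k.2] at this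
      exact this
  rw [e1, measureReal_def, Measure.infinitePi_pi _ (fun i _ => (Set.toFinite _).measurableSet),
    ENNReal.toReal_prod, Finset.prod_range]
  refine Finset.prod_congr rfl (fun k _ => ?_)
  simp only [t]
  rw [dif_pos k.2, one_singleton, ENNReal.toReal_ofReal (wgt_nonneg (h k) _)]

/-! ### the centred terms -/

/-- the centred terms -/
noncomputable def xi (b u : ℕ → ℝ) (c : ℝ) (k : ℕ) (ω : ℕ → Bool) : ℝ :=
  c * (((if ω k then (1 : ℝ) else -1) + u k) * b k)

theorem g_meas (a b c : ℝ) : Measurable (fun x : Bool => c * (((if x then (1:ℝ) else -1) + a) * b)) :=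
  measurable_of_finite _

theorem xi_meas (b u : ℕ → ℝ) (c : ℝ) (k : ℕ) : Measurable (xi b u c k) :=
  (g_meas (u k) (b k) c).comp (measurable_pi_apply k)

theorem xi_indep (b u : ℕ → ℝ) (h : ∀ k, |u k| ≤ 1) (c : ℝ) :
    iIndepFun (xi b u c) (Measure.infinitePi (fun k : ℕ => one (u k))) := by
  have := fun k => one_prob (h k)
  exact iIndepFun_infinitePi (P := fun k : ℕ => one (u k))
    (X := fun k : ℕ => fun x : Bool => c * (((if x then (1:ℝ) else -1) + u k) * b k)) (fun k => g_meas _ _ _)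

theorem xi_mean (b u : ℕ → ℝ) (h : ∀ k, |u k| ≤ 1) (c : ℝ) (k : ℕ) :
    ∫ ω, xi b u c k ω ∂(Measure.infinitePi (fun k : ℕ => one (u k))) = 0 := by
  have := fun k => one_prob (h k)
  have h' := abs_le.1 (h k)
  obtain ⟨P, hP⟩ : ∃ P, P = Measure.infinitePi (fun k : ℕ => one (u k)) := ⟨_, rfl⟩
  have hPp : IsProbabilityMeasure P := by rw [hP]; infer_instance
  rw [← hP]
  have e1 : ∫ ω, xi b u c k ω ∂P = ∫ x, c * (((if x then (1:ℝ) else -1) + u k) * b k) ∂(P.map (fun ω : ℕ → Bool => ω k)) := by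
    rw [integral_map (measurable_pi_apply k).aemeasurable
      (measurable_of_finite _).aestronglyMeasurable]
    rfl
  rw [e1, hP, Measure.infinitePi_map_eval]
  unfold one
  rw [integral_add_measure, integral_smul_measure, integral_smul_measure, integral_dirac, integral_dirac,
    ENNReal.toReal_ofReal (by linarith [h'.1, h'.2]), ENNReal.toReal_ofReal (by linarith [h'.1, h'.2])]
  · simp; ring
  · exact (Integrable.of_finite (μ := Measure.dirac true)).smul_measure ENNReal.ofReal_ne_top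
  · exact (Integrable.of_finite (μ := Measure.dirac false)).smul_measure ENNReal.ofReal_ne_top

theorem xi_mem (b u : ℕ → ℝ) (c : ℝ) (hc : |c| = 1) (k : ℕ) (ω : ℕ → Bool) :
    xi b u c k ω ∈ Set.Icc (c * u k * b k - |b k|) (c * u k * b k + |b k|) := by
  unfold xi
  have h1 : |c * (if ω k then (1 : ℝ) else -1) * b k| = |b k| := by
    rw [abs_mul, abs_mul, hc]
    split_ifs <;> simp
  have h2 := abs_le.1 (le_of_eq h1)
  constructor <;> linarith [h2.1, h2.2]

theorem xi_var (b u : ℕ → ℝ) (h : ∀ k, |u k| ≤ 1) (c : ℝ) (hc : |c| = 1) (k : ℕ) :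
    Var[xi b u c k; Measure.infinitePi (fun k : ℕ => one (u k))] ≤ b k ^ 2 := by
  have := fun k => one_prob (h k)
  have h1 := variance_le_sq_of_bounded (μ := Measure.infinitePi (fun k : ℕ => one (u k)))
    (Eventually.of_forall (xi_mem b u c hc k)) (xi_meas b u c k).aemeasurable
  refine h1.trans (le_of_eq ?_)
  have : ((c * u k * b k + |b k| - (c * u k * b k - |b k|)) / 2) ^ 2 = |b k| ^ 2 := by ring
  rw [this, sq_abs]

/-- the one-sided maximal inequality -/
theorem maxi (b u : ℕ → ℝ) (h : ∀ k, |u k| ≤ 1) (c : ℝ) (hc : |c| = 1) (w : ℕ) {x : ℝ} (hx : 0 < x) :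
    (Measure.infinitePi (fun k : ℕ => one (u k))).real
      {ω | ∃ z ≤ w, x ≤ ∑ k ∈ Finset.range z, xi b u c k ω} ≤ V b w / x ^ 2 := by
  have := fun k => one_prob (h k)
  obtain ⟨P, hP⟩ : ∃ P, P = Measure.infinitePi (fun k : ℕ => one (u k)) := ⟨_, rfl⟩
  have hPp : IsProbabilityMeasure P := by rw [hP]; infer_instance
  have hind := xi_indep b u h c
  have hmean := xi_mean b u h c
  have hvar := xi_var b u h c hc
  rw [← hP] at hind ⊢
  simp only [← hP] at hmean hvar
  have hind' : iIndepFun (fun (i : Fin w) => xi b u c (i : ℕ)) P :=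
    hind.precomp (g := fun i : Fin w => (i : ℕ)) Fin.val_injective
  have hb : Pool.Agent.Y285.HH.Kol.Blocks (fun (i : Fin w) => xi b u c (i : ℕ)) P :=
    fun S T hST => hind'.indepFun_finset S T hST (fun i => xi_meas b u c i)
  have hk := Pool.Agent.Y285.HH.Kol.kolmogorov (w := w) (x := x) hb (fun i => xi_meas b u c i)
    (fun i => memLp_of_bounded (Eventually.of_forall (xi_mem b u c hc i))
      (xi_meas b u c i).aestronglyMeasurable 2) (fun i => hmean i) hx
  have hsm : ∀ (z : ℕ) (ω : ℕ → Bool), z ≤ w → Pool.Agent.Y285.HH.Kol.sm z (fun i : Fin w => xi b u c (i : ℕ) ω) =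
      ∑ k ∈ Finset.range z, xi b u c k ω := by
    intro z ω hz
    unfold Pool.Agent.Y285.HH.Kol.sm
    rw [Fin.sum_univ_eq_sum_range (fun k => if k < z then xi b u c k ω else 0) w, ← Finset.sum_filter]
    congr 1
    ext k
    simp only [Finset.mem_filter, Finset.mem_range]
    omega
  have hset : {ω | ∃ z ≤ w, x ≤ ∑ k ∈ Finset.range z, xi b u c k ω} =
      {ω | ∃ z ≤ w, x ≤ Pool.Agent.Y285.HH.Kol.sm z (fun i : Fin w => xi b u c (i : ℕ) ω)} := by
    ext ω
    rw [Set.mem_ofPred_eq, Set.mem_ofPred_eq]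
    constructor
    · rintro ⟨z, hz, hzx⟩
      exact ⟨z, hz, by rw [hsm z ω hz]; exact hzx⟩
    · rintro ⟨z, hz, hzx⟩
      exact ⟨z, hz, by rw [← hsm z ω hz]; exact hzx⟩
  rw [hset]
  refine hk.trans ?_
  apply div_le_div_of_nonneg_right _ (by positivity)
  have hfin : ∑ i : Fin w, Var[xi b u c (i : ℕ); P] ≤ ∑ i : Fin w, b (i : ℕ) ^ 2 :=
    Finset.sum_le_sum fun i _ => hvar (i : ℕ)
  refine hfin.trans (le_of_eq ?_)
  unfold V
  exact Fin.sum_univ_eq_sum_range (fun k => b k ^ 2) w

/-! ### the strong law -/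

theorem V_mono (b : ℕ → ℝ) : Monotone (V b) := by
  intro m n h
  unfold V
  exact Finset.sum_le_sum_of_subset_of_nonneg (Finset.range_mono h) fun i _ _ => sq_nonneg _

theorem V_zero (b : ℕ → ℝ) : V b 0 = 0 := by
  unfold V
  simp

/-- the last index with `V < 2 ^ (j + 1)` -/
theorem last (b : ℕ → ℝ) (hV : Tendsto (V b) atTop atTop) (j : ℕ) :
    ∃ w : ℕ, V b w < 2 ^ (j + 1) ∧ ∀ n, V b n < 2 ^ (j + 1) → n ≤ w := by
  classical
  have hex : ∃ n, (2 : ℝ) ^ (j + 1) ≤ V b n := (hV.eventually_ge_atTop _).exists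
  have h1 := Nat.find_spec hex
  have h2 : Nat.find hex ≠ 0 := by
    intro h
    rw [h, V_zero] at h1
    have : (0 : ℝ) < 2 ^ (j + 1) := by positivity
    linarith
  refine ⟨Nat.find hex - 1, ?_, ?_⟩
  · have := Nat.find_min hex (m := Nat.find hex - 1) (by omega)
    push Not at this
    exact this
  · intro n hn
    by_contra hcon
    push Not at hcon
    have h3 : Nat.find hex ≤ n := by omega
    have := V_mono b h3
    linarith

theorem slln_half (b u : ℕ → ℝ) (h : ∀ k, |u k| ≤ 1) (hV : Tendsto (V b) atTop atTop) (c : ℝ) (hc : |c| = 1)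
    {ε : ℝ} (hε : 0 < ε) : ∀ᵐ ω ∂(Measure.infinitePi (fun k : ℕ => one (u k))),
      ∀ᶠ n in atTop, ∑ k ∈ Finset.range n, xi b u c k ω < ε * V b n := by
  have := fun k => one_prob (h k)
  choose w hw1 hw2 using last b hV
  have key : ∀ᵐ ω ∂(Measure.infinitePi (fun k : ℕ => one (u k))), ∀ᶠ j : ℕ in atTop,
      ω ∉ {ω : ℕ → Bool | ∃ z ≤ w j, ε * 2 ^ j ≤ ∑ k ∈ Finset.range z, xi b u c k ω} := by
    apply ae_eventually_notMem
    have hb : ∀ j : ℕ, (Measure.infinitePi (fun k : ℕ => one (u k)))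
        {ω : ℕ → Bool | ∃ z ≤ w j, ε * 2 ^ j ≤ ∑ k ∈ Finset.range z, xi b u c k ω} ≤
        ENNReal.ofReal (2 / ε ^ 2 * (1 / 2) ^ j) := by
      intro j
      rw [← ofReal_measureReal]
      apply ENNReal.ofReal_le_ofReal
      refine (maxi b u h c hc (w j) (by positivity)).trans ?_
      have h1 := (hw1 j).le
      have h2 : V b (w j) / (ε * 2 ^ j) ^ 2 ≤ 2 ^ (j + 1) / (ε * 2 ^ j) ^ 2 :=
        div_le_div_of_nonneg_right h1 (by positivity)
      refine h2.trans (le_of_eq ?_)
      rw [one_div, inv_pow, pow_succ]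
      field_simp
    refine ne_top_of_le_ne_top ?_ (ENNReal.tsum_le_tsum hb)
    have hs : Summable (fun j : ℕ => 2 / ε ^ 2 * (1 / 2 : ℝ) ^ j) :=
      (summable_geometric_of_lt_one (by norm_num) (by norm_num)).mul_left _
    exact hs.tsum_ofReal_ne_top
  filter_upwards [key] with ω hω
  obtain ⟨J, hJ⟩ := eventually_atTop.1 hω
  filter_upwards [hV.eventually_ge_atTop ((2 : ℝ) ^ J), hV.eventually_ge_atTop 1] with n hn hn1
  obtain ⟨j, hj1, hj2⟩ := exists_nat_pow_near hn1 (by norm_num : (1 : ℝ) < 2)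
  have hjJ : J ≤ j := by
    have : (2 : ℝ) ^ J < 2 ^ (j + 1) := lt_of_le_of_lt hn hj2
    have := (pow_lt_pow_iff_right₀ (by norm_num : (1 : ℝ) < 2)).1 this
    omega
  have h1 := hJ j hjJ
  push Not at h1
  have h2 := h1 n (hw2 j n hj2)
  have h3 : ε * 2 ^ j ≤ ε * V b n := mul_le_mul_of_nonneg_left hj1 hε.le
  linarith

theorem slln (b u : ℕ → ℝ) (h : ∀ k, |u k| ≤ 1) (hV : Tendsto (V b) atTop atTop) :
    ∀ᵐ ω ∂(Measure.infinitePi (fun k : ℕ => one (u k))),
      Tendsto (fun n => (∑ k ∈ Finset.range n, xi b u 1 k ω) / V b n) atTop (𝓝 0) := by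
  have h1 : ∀ᵐ ω ∂(Measure.infinitePi (fun k : ℕ => one (u k))), ∀ q : ℕ,
      ∀ᶠ n in atTop, ∑ k ∈ Finset.range n, xi b u 1 k ω < 1 / ((q : ℝ) + 1) * V b n :=
    ae_all_iff.2 fun q => slln_half b u h hV 1 (by norm_num) (by positivity)
  have h2 : ∀ᵐ ω ∂(Measure.infinitePi (fun k : ℕ => one (u k))), ∀ q : ℕ,
      ∀ᶠ n in atTop, ∑ k ∈ Finset.range n, xi b u (-1) k ω < 1 / ((q : ℝ) + 1) * V b n :=
    ae_all_iff.2 fun q => slln_half b u h hV (-1) (by norm_num) (by positivity)
  filter_upwards [h1, h2] with ω h1 h2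
  rw [Metric.tendsto_atTop]
  intro ε hε
  obtain ⟨q, hq⟩ := exists_nat_one_div_lt hε
  have h3 := ((h1 q).and (h2 q)).and (hV.eventually_gt_atTop 0)
  obtain ⟨N, hN⟩ := eventually_atTop.1 h3
  refine ⟨N, fun n hn => ?_⟩
  obtain ⟨⟨h4, h5⟩, h6⟩ := hN n hn
  have e1 : ∑ k ∈ Finset.range n, xi b u (-1) k ω = -∑ k ∈ Finset.range n, xi b u 1 k ω := by
    rw [← Finset.sum_neg_distrib]
    apply Finset.sum_congr rfl
    intro k _
    unfold xi
    ring
  rw [e1] at h5
  rw [Real.dist_eq, sub_zero, abs_div, abs_of_pos h6, div_lt_iff₀ h6]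
  have h7 : |∑ k ∈ Finset.range n, xi b u 1 k ω| < 1 / ((q : ℝ) + 1) * V b n := abs_lt.2 ⟨by linarith, h4⟩
  refine h7.trans ?_
  exact mul_lt_mul_of_pos_right hq h6

/-! ### the theorem -/

theorem tanh_little (b : ℕ → ℝ) (κ : ℝ) (hb : Tendsto b atTop (𝓝 0)) :
    (fun k => Real.tanh (κ * b k) * b k - κ * b k ^ 2) =o[atTop] fun k => b k ^ 2 := by
  have h1 := (deriv_tanh 0).isLittleO
  rw [Real.tanh_zero] at h1
  have h2 : (fun x : ℝ => Real.tanh x - x) =o[𝓝 0] fun x => x := by
    refine (h1.congr_left ?_).congr_right ?_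
    · intro x
      simp
    · intro x
      simp
  have h3 : Tendsto (fun k => κ * b k) atTop (𝓝 0) := by
    have := hb.const_mul κ
    rwa [mul_zero] at this
  have h4 := h2.comp_tendsto h3
  have h5 : (fun k => (Real.tanh (κ * b k) - κ * b k) * b k) =o[atTop] fun k => (κ * b k) * b k :=
    h4.mul_isBigO (Asymptotics.isBigO_refl _ _)
  have h6 : (fun k => (κ * b k) * b k) =O[atTop] fun k => b k ^ 2 := by
    have : (fun k => (κ * b k) * b k) = fun k => κ * b k ^ 2 := by
      funext k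
      ring
    rw [this]
    exact Asymptotics.isBigO_const_mul_self κ _ _
  refine (h5.trans_isBigO h6).congr_left ?_
  intro k
  ring

theorem tilt : S_TILT := by
  intro b κ hb hV
  set u : ℕ → ℝ := fun k => Real.tanh (κ * b k) with hu
  have hu1 : ∀ k, |u k| ≤ 1 := fun k => (Real.abs_tanh_lt_one _).le
  have := fun k => one_prob (hu1 k)
  refine ⟨Measure.infinitePi (fun k : ℕ => one (u k)), inferInstance, ?_, ?_⟩
  · intro n
    unfold D entropy
    have e1 : ∑ s : Fin n → Bool, Real.negMulLog ((Measure.infinitePi (fun k : ℕ => one (u k))).real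
        {ω | ∀ k : Fin n, ω k = s k}) = ∑ k : Fin n, Real.binEntropy ((1 + u k) / 2) := by
      rw [← ent_wgt n (fun k : Fin n => u k)]
      exact Finset.sum_congr rfl (fun s _ => by rw [law hu1])
    rw [e1]
    have e2 : (n : ℝ) * Real.log 2 = ∑ _k : Fin n, Real.log 2 := by
      rw [Finset.sum_const, Finset.card_univ, Fintype.card_fin, nsmul_eq_mul]
    rw [e2, ← Finset.sum_sub_distrib]
    have hfin : ∑ k : Fin n, (Real.log 2 - Real.binEntropy ((1 + u (k : ℕ)) / 2)) ≤
        ∑ k : Fin n, (κ * b (k : ℕ)) ^ 2 / 2 := Finset.sum_le_sum fun k _ => binEnt (κ * b (k : ℕ))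
    refine hfin.trans (le_of_eq ?_)
    rw [Fin.sum_univ_eq_sum_range (fun k => (κ * b k) ^ 2 / 2) n]
    unfold V
    rw [Finset.mul_sum, Finset.sum_div]
    apply Finset.sum_congr rfl
    intro k _
    ring
  · have hs := slln b u hu1 hV
    have hl := (tanh_little b κ hb).sum_range (fun k => sq_nonneg _) hV
    have hl2 : Tendsto (fun n => (∑ k ∈ Finset.range n, (Real.tanh (κ * b k) * b k - κ * b k ^ 2)) / V b n)
        atTop (𝓝 0) := hl.tendsto_div_nhds_zero
    filter_upwards [hs] with ω hω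
    have h1 := (hω.sub hl2).sub (tendsto_const_nhds (x := κ))
    rw [sub_zero, zero_sub] at h1
    refine h1.congr' ?_
    filter_upwards [hV.eventually_gt_atTop 0] with n hn
    have e1 : S b ω n = ∑ k ∈ Finset.range n, xi b u 1 k ω -
        ∑ k ∈ Finset.range n, (Real.tanh (κ * b k) * b k - κ * b k ^ 2) - κ * V b n := by
      unfold S V xi
      rw [Finset.mul_sum, ← Finset.sum_sub_distrib, ← Finset.sum_sub_distrib]
      apply Finset.sum_congr rfl
      intro k _
      unfold sg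
      simp only [hu]
      ring
    rw [e1]
    field_simp

end Pool.Agent.Q190.IR.Tilt
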