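import Pool.Agent.Q255.IR.Stm
import Pool.Agent.Q150.IC.Jen

set_option autoImplicit false

/-! Project IR (helper255), jobs DPI, LDV, ONE. -/

namespace Pool.Agent.Q190.IR

open Filter Topology MeasureTheory
open Pool.Agent.Q255.IC Pool.Agent.Q255.IR
open Pool.Agent.Q150.IC (jen cyl_meas sum_cyl)

/-- the general inequality -/
theorem gibbs (ν : Measure (ℕ → Bool)) [IsProbabilityMeasure ν] (n : ℕ) (g : (Fin n → Bool) → ℝ) :
    ∑ s : Fin n → Bool, ν.real {ω | ∀ k : Fin n, ω k = s k} * g s ≤
      D ν n + Real.log ((∑ s : Fin n → Bool, Real.exp (g s)) / 2 ^ n) := by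
  have h := jen Unit (Fin n → Bool) (fun _ s => ν.real {ω | ∀ k : Fin n, ω k = s k}) (fun _ s => g s)
    (fun _ s => measureReal_nonneg) (by
      have h1 := sum_cyl ν n Set.univ
      simp only [Set.inter_univ] at h1
      rw [Fintype.sum_unique]
      rw [measureReal_def, measure_univ, ENNReal.toReal_one] at h1
      exact h1)
  have h1 := sum_cyl ν n Set.univ
  simp only [Set.inter_univ] at h1
  rw [measureReal_def, measure_univ, ENNReal.toReal_one] at h1
  simp only [Fintype.sum_unique, Fintype.card_unique, Nat.cast_one, Real.log_one, add_zero] at h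
  have h2 : ∑ s : Fin n → Bool, ν.real {ω : ℕ → Bool | ∀ k : Fin n, ω k = s k} = 1 := h1
  rw [h2, one_mul] at h
  have hc : (Fintype.card (Fin n → Bool) : ℝ) = 2 ^ n := by simp
  rw [hc] at h
  have hl : Real.log ((2 : ℝ) ^ n) = n * Real.log 2 := Real.log_pow 2 n
  rw [hl] at h
  unfold D entropy
  linarith

theorem real_cyl (ν : Measure (ℕ → Bool)) [IsProbabilityMeasure ν] {n : ℕ} (W : Finset (Fin n → Bool)) :
    ν.real (cyl W) = ∑ s ∈ W, ν.real {ω | ∀ k : Fin n, ω k = s k} := by
  classical
  have h := sum_cyl ν n (cyl W)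
  rw [← h]
  rw [← Finset.sum_filter_add_sum_filter_not Finset.univ (fun s => s ∈ W)]
  have h1 : ∀ s : Fin n → Bool, s ∈ W → Pool.Agent.Q150.IC.cyl s ∩ cyl W = {ω : ℕ → Bool | ∀ k : Fin n, ω k = s k} := by
    intro s hs
    ext ω
    rw [Set.mem_inter_iff, Set.mem_ofPred_eq]
    constructor
    · rintro ⟨h2, _⟩
      exact h2
    · intro h2
      refine ⟨h2, ?_⟩
      unfold cyl
      rw [Set.mem_ofPred_eq]
      have : (fun k : Fin n => ω k) = s := funext h2
      rw [this]
      exact hs
  have h2 : ∀ s : Fin n → Bool, s ∉ W → Pool.Agent.Q150.IC.cyl s ∩ cyl W = ∅ := by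
    intro s hs
    ext ω
    rw [Set.mem_inter_iff]
    constructor
    · rintro ⟨h3, h4⟩
      unfold cyl at h4
      rw [Set.mem_ofPred_eq] at h4
      have : (fun k : Fin n => ω k) = s := funext h3
      rw [this] at h4
      exact absurd h4 hs
    · intro h3
      exact absurd h3 (Set.notMem_empty ω)
  have e1 : ∑ s ∈ Finset.univ.filter (fun s => s ∈ W), ν.real (Pool.Agent.Q150.IC.cyl s ∩ cyl W) =
      ∑ s ∈ W, ν.real {ω | ∀ k : Fin n, ω k = s k} := by
    have : Finset.univ.filter (fun s => s ∈ W) = W := by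
      ext s; simp
    rw [this]
    exact Finset.sum_congr rfl fun s hs => by rw [h1 s hs]
  have e2 : ∑ s ∈ Finset.univ.filter (fun s => ¬ s ∈ W), ν.real (Pool.Agent.Q150.IC.cyl s ∩ cyl W) = 0 := by
    refine Finset.sum_eq_zero fun s hs => ?_
    rw [Finset.mem_filter] at hs
    rw [h2 s hs.2]
    simp
  rw [e1, e2, add_zero]

theorem t_DPI : S_DPI := by
  intro ν _ n W
  have hl2 : 0 < Real.log 2 := Real.log_pos (by norm_num)
  have h0 : 0 ≤ D ν n := by
    have h := gibbs ν n (fun _ => 0)
    simp only [mul_zero, Finset.sum_const_zero, Real.exp_zero, Finset.sum_const, nsmul_eq_mul, mul_one] at h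
    have hc : ((Finset.univ : Finset (Fin n → Bool)).card : ℝ) = 2 ^ n := by simp
    rw [hc, div_self (by positivity), Real.log_one, add_zero] at h
    exact h
  refine ⟨h0, ?_⟩
  classical
  rcases W.eq_empty_or_nonempty with hW | hW
  · have : cyl W = ∅ := by
      rw [hW]
      ext ω
      unfold cyl
      rw [Set.mem_ofPred_eq]
      constructor
      · intro h; exact absurd h (Finset.notMem_empty _)
      · intro h; exact absurd h (Set.notMem_empty ω)
    rw [this]
    simp only [measureReal_empty, zero_mul]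
    linarith
  · set c : ℝ := n * Real.log 2 - Real.log W.card with hc
    have hWc : (0 : ℝ) < W.card := by exact_mod_cast hW.card_pos
    have h := gibbs ν n (fun s => if s ∈ W then c else 0)
    have e1 : ∑ s : Fin n → Bool, ν.real {ω : ℕ → Bool | ∀ k : Fin n, ω k = s k} * (if s ∈ W then c else 0) =
        ν.real (cyl W) * c := by
      rw [real_cyl, Finset.sum_mul]
      simp only [mul_ite, mul_zero]
      rw [← Finset.sum_filter]
      refine Finset.sum_congr ?_ fun _ _ => rfl
      ext s; simp
    rw [e1] at h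
    have e2 : (∑ s : Fin n → Bool, Real.exp (if s ∈ W then c else 0)) / 2 ^ n ≤ 2 := by
      rw [div_le_iff₀ (by positivity)]
      rw [← Finset.sum_filter_add_sum_filter_not Finset.univ (fun s => s ∈ W)]
      have e3 : ∑ s ∈ Finset.univ.filter (fun s : Fin n → Bool => s ∈ W), Real.exp (if s ∈ W then c else 0) = 2 ^ n := by
        have : Finset.univ.filter (fun s => s ∈ W) = W := by
          ext s; simp
        rw [this, Finset.sum_congr rfl (fun s hs => by rw [if_pos hs]), Finset.sum_const, nsmul_eq_mul, hc, Real.exp_sub,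
          Real.exp_log hWc, Real.exp_nat_mul, Real.exp_log (by norm_num)]
        field_simp
      have e4 : ∑ s ∈ Finset.univ.filter (fun s : Fin n → Bool => ¬ s ∈ W), Real.exp (if s ∈ W then c else 0) ≤ 2 ^ n := by
        have h5 : ∑ s ∈ Finset.univ.filter (fun s : Fin n → Bool => ¬ s ∈ W), Real.exp (if s ∈ W then c else 0) =
            ∑ s ∈ Finset.univ.filter (fun s : Fin n → Bool => ¬ s ∈ W), 1 := by
          refine Finset.sum_congr rfl fun s hs => ?_
          rw [if_neg (Finset.mem_filter.1 hs).2, Real.exp_zero]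
        rw [h5, Finset.sum_const, nsmul_eq_mul, mul_one]
        have h6 := Finset.card_le_univ (Finset.univ.filter (fun s : Fin n → Bool => ¬ s ∈ W))
        have h7 : ((Finset.univ.filter (fun s : Fin n → Bool => ¬ s ∈ W)).card : ℝ) ≤ (Fintype.card (Fin n → Bool) : ℝ) := by
          exact_mod_cast h6
        refine h7.trans (le_of_eq ?_)
        simp
      linarith
    have e5 : 0 < (∑ s : Fin n → Bool, Real.exp (if s ∈ W then c else 0)) / 2 ^ n := by
      have : 0 < ∑ s : Fin n → Bool, Real.exp (if s ∈ W then c else 0) :=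
        Finset.sum_pos (fun s _ => Real.exp_pos _) Finset.univ_nonempty
      positivity
    have e6 := Real.log_le_log e5 e2
    linarith

/-- the exponential moment -/
theorem expsum (n : ℕ) (x : ℕ → ℝ) : ∑ s : Fin n → Bool, Real.exp (∑ k : Fin n, (if s k then (1 : ℝ) else -1) * x k) ≤
    2 ^ n * Real.exp ((∑ k ∈ Finset.range n, x k ^ 2) / 2) := by
  have h2 : ∑ s : Fin n → Bool, Real.exp (∑ k : Fin n, (if s k then (1 : ℝ) else -1) * x k) =
      ∏ k : Fin n, (Real.exp (x k) + Real.exp (-(x k))) := by
    have h3 : ∀ s : Fin n → Bool, Real.exp (∑ k : Fin n, (if s k then (1 : ℝ) else -1) * x k) =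
        ∏ k : Fin n, (if s k then Real.exp (x k) else Real.exp (-(x k))) := by
      intro s
      rw [Real.exp_sum]
      refine Finset.prod_congr rfl fun k _ => ?_
      split_ifs
      · rw [one_mul]
      · congr 1
        ring
    rw [Finset.sum_congr rfl fun s _ => h3 s]
    rw [← Fintype.prod_sum (fun (k : Fin n) (b : Bool) => if b then Real.exp (x k) else Real.exp (-(x k)))]
    refine Finset.prod_congr rfl fun k _ => ?_
    rw [Fintype.sum_bool]
    simp
  rw [h2]
  have h4 : ∀ k : Fin n, Real.exp (x k) + Real.exp (-(x k)) ≤ 2 * Real.exp (x k ^ 2 / 2) := by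
    intro k
    have h5 := Real.cosh_le_exp_half_sq (x k)
    rw [Real.cosh_eq] at h5
    linarith
  refine (Finset.prod_le_prod (fun k _ => by positivity) fun k _ => h4 k).trans (le_of_eq ?_)
  rw [Finset.prod_mul_distrib, Finset.prod_const, Finset.card_univ, Fintype.card_fin, ← Real.exp_sum,
    Finset.sum_range (fun k => x k ^ 2), Finset.sum_div]

theorem t_LDV : S_LDV := by
  intro b κ n hκ
  set A := Finset.univ.filter fun s : Fin n → Bool =>
      κ * V b n ≤ |∑ k : Fin n, (if s k then (1 : ℝ) else -1) * b k| with hA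
  have hV : ∑ k ∈ Finset.range n, (κ * b k) ^ 2 = κ ^ 2 * V b n := by
    unfold V
    rw [Finset.mul_sum]
    exact Finset.sum_congr rfl fun k _ => by ring
  have hV2 : ∑ k ∈ Finset.range n, (-(κ * b k)) ^ 2 = κ ^ 2 * V b n := by
    rw [← hV]
    exact Finset.sum_congr rfl fun k _ => by ring
  have e1 := expsum n (fun k => κ * b k)
  have e2 := expsum n (fun k => -(κ * b k))
  rw [hV] at e1
  rw [hV2] at e2
  have h1 : (A.card : ℝ) * Real.exp (κ * (κ * V b n)) ≤
      ∑ s : Fin n → Bool, (Real.exp (∑ k : Fin n, (if s k then (1 : ℝ) else -1) * (κ * b k)) +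
        Real.exp (∑ k : Fin n, (if s k then (1 : ℝ) else -1) * (-(κ * b k)))) := by
    calc (A.card : ℝ) * Real.exp (κ * (κ * V b n)) = ∑ s ∈ A, Real.exp (κ * (κ * V b n)) := by
          rw [Finset.sum_const, nsmul_eq_mul]
      _ ≤ ∑ s ∈ A, (Real.exp (∑ k : Fin n, (if s k then (1 : ℝ) else -1) * (κ * b k)) +
        Real.exp (∑ k : Fin n, (if s k then (1 : ℝ) else -1) * (-(κ * b k)))) := by
          refine Finset.sum_le_sum fun s hs => ?_
          rw [hA, Finset.mem_filter] at hs
          have h3 : Real.exp (κ * (κ * V b n)) ≤ Real.exp (κ * |∑ k : Fin n, (if s k then (1 : ℝ) else -1) * b k|) :=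
            Real.exp_le_exp.2 (mul_le_mul_of_nonneg_left hs.2 hκ)
          refine h3.trans ?_
          have e3 : ∑ k : Fin n, (if s k then (1 : ℝ) else -1) * (κ * b k) =
              κ * ∑ k : Fin n, (if s k then (1 : ℝ) else -1) * b k := by
            rw [Finset.mul_sum]
            exact Finset.sum_congr rfl fun k _ => by ring
          have e4 : ∑ k : Fin n, (if s k then (1 : ℝ) else -1) * (-(κ * b k)) =
              -(κ * ∑ k : Fin n, (if s k then (1 : ℝ) else -1) * b k) := by
            rw [Finset.mul_sum, ← Finset.sum_neg_distrib]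
            exact Finset.sum_congr rfl fun k _ => by ring
          rw [e3, e4]
          rcases abs_cases (∑ k : Fin n, (if s k then (1 : ℝ) else -1) * b k) with ⟨h4, _⟩ | ⟨h4, _⟩
          · rw [h4]
            linarith [Real.exp_pos (-(κ * ∑ k : Fin n, (if s k then (1 : ℝ) else -1) * b k))]
          · rw [h4, mul_neg]
            linarith [Real.exp_pos (κ * ∑ k : Fin n, (if s k then (1 : ℝ) else -1) * b k)]
      _ ≤ _ := Finset.sum_le_sum_of_subset_of_nonneg (Finset.subset_univ _) fun s _ _ => by positivity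
  rw [Finset.sum_add_distrib] at h1
  have h2 : (A.card : ℝ) * Real.exp (κ * (κ * V b n)) ≤ 2 * 2 ^ n * Real.exp (κ ^ 2 * V b n / 2) := by linarith
  have h3 : 2 * 2 ^ n * Real.exp (-(κ ^ 2 * V b n / 2)) =
      2 * 2 ^ n * Real.exp (κ ^ 2 * V b n / 2) * (Real.exp (κ * (κ * V b n)))⁻¹ := by
    rw [mul_assoc (2 * 2 ^ n), ← Real.exp_neg, ← Real.exp_add]
    congr 2
    ring
  rw [h3, ← div_eq_mul_inv, le_div_iff₀ (Real.exp_pos _)]
  exact h2

theorem t_ONE (hD : S_DPI) (hL : S_LDV) : S_ONE := by
  intro ν _ b κ n hκ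
  set W := Finset.univ.filter fun s : Fin n → Bool =>
      κ * V b n ≤ |∑ k : Fin n, (if s k then (1 : ℝ) else -1) * b k| with hW
  have hl2 : 0 < Real.log 2 := Real.log_pos (by norm_num)
  have h1 : {ω | κ * V b n ≤ |S b ω n|} = cyl W := by
    ext ω
    unfold cyl
    rw [Set.mem_ofPred_eq, Set.mem_ofPred_eq, hW, Finset.mem_filter]
    have e : S b ω n = ∑ k : Fin n, (if (fun k : Fin n => ω k) k then (1 : ℝ) else -1) * b k := by
      unfold S sg
      rw [Finset.sum_range]
    rw [e]
    simp only [Finset.mem_univ, true_and]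
  have h2 := (hD ν n W).2
  have h3 := hL b κ n hκ
  rw [← hW] at h3
  rw [h1]
  rcases W.eq_empty_or_nonempty with h0 | h0
  · have : cyl W = ∅ := by
      rw [h0]
      ext ω
      unfold cyl
      rw [Set.mem_ofPred_eq]
      constructor
      · intro h; exact absurd h (Finset.notMem_empty _)
      · intro h; exact absurd h (Set.notMem_empty ω)
    have hD0 := (hD ν n W).1
    rw [this]
    simp only [measureReal_empty, zero_mul]
    linarith
  · have hWc : (0 : ℝ) < W.card := by exact_mod_cast h0.card_pos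
    have h4 := Real.log_le_log hWc h3
    rw [Real.log_mul (by positivity) (Real.exp_pos _).ne', Real.log_exp, Real.log_mul two_ne_zero (by positivity),
      Real.log_pow] at h4
    refine le_trans (mul_le_mul_of_nonneg_left ?_ measureReal_nonneg) h2
    linarith

end Pool.Agent.Q190.IR
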