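import Pool.Agent.Q255.IR.Stm

set_option autoImplicit false

/-! Project IR (helper255), job SB: small ball bound for fair sign sums (discrete Fejér kernel). -/

namespace Pool.Agent.Q190.IR.SB

open Pool.Agent.Q255.IR Finset

/-- the sign -/
noncomputable def e (x : Bool) : ℝ := if x then 1 else -1

theorem cos_sum : ∀ (n : ℕ) (b : Fin n → ℝ) (θ : ℝ),
    ∑ s : Fin n → Bool, Real.cos (θ + ∑ i, e (s i) * b i) = Real.cos θ * ∏ i, (2 * Real.cos (b i)) := by
  intro n
  induction n with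
  | zero =>
    intro b θ
    simp
  | succ n ih =>
    intro b θ
    rw [← (Fin.consEquiv (fun _ : Fin (n + 1) => Bool)).sum_comp, Fintype.sum_prod_type]
    have h1 : ∀ (x : Bool), ∑ y : Fin n → Bool, Real.cos (θ + ∑ i : Fin (n + 1),
        e ((Fin.consEquiv (fun _ : Fin (n + 1) => Bool)) (x, y) i) * b i) =
        Real.cos (θ + e x * b 0) * ∏ i : Fin n, (2 * Real.cos (b i.succ)) := by
      intro x
      rw [← ih (fun i => b i.succ) (θ + e x * b 0)]
      apply sum_congr rfl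
      intro y _
      congr 1
      rw [Fin.sum_univ_succ]
      simp only [Fin.consEquiv, Equiv.coe_fn_mk, Fin.cons_zero, Fin.cons_succ]
      ring
    rw [sum_congr rfl (fun x _ => h1 x), Fintype.sum_bool, Fin.prod_univ_succ]
    have h2 : e true = 1 := rfl
    have h3 : e false = -1 := rfl
    rw [h2, h3, one_mul, neg_one_mul, ← sub_eq_add_neg, Real.cos_add, Real.cos_sub]
    ring

theorem cos_le {u : ℝ} (hu : |u| ≤ 1) : Real.cos u ≤ Real.exp (-(u ^ 2 / 5)) := by
  have hπ : |u| ≤ Real.pi := hu.trans (by linarith [Real.pi_gt_three])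
  have h1 := Real.cos_le_one_sub_mul_cos_sq hπ
  have h2 : 1 - 2 / Real.pi ^ 2 * u ^ 2 ≤ 1 - u ^ 2 / 5 := by
    have h3 : Real.pi ^ 2 ≤ 10 := by
      have := Real.pi_lt_d2
      have h0 := Real.pi_pos
      nlinarith
    have h4 : 1 / 5 ≤ 2 / Real.pi ^ 2 := by
      rw [div_le_div_iff₀ (by norm_num) (by positivity)]
      linarith
    nlinarith [sq_nonneg u]
  have h3 := Real.one_sub_le_exp_neg (u ^ 2 / 5)
  linarith

theorem cos_sum_le (n : ℕ) (b : Fin n → ℝ) (c v : ℝ) (hb : ∀ i, |v * b i| ≤ 1) (hV : 1 ≤ ∑ i, b i ^ 2) :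
    ∑ s : Fin n → Bool, Real.cos (v * ((∑ i, e (s i) * b i) - c)) ≤ 2 ^ n * Real.exp (-(v ^ 2 / 5)) := by
  have h1 := cos_sum n (fun i => v * b i) (-(v * c))
  have h2 : ∀ s : Fin n → Bool, Real.cos (v * ((∑ i, e (s i) * b i) - c)) =
      Real.cos (-(v * c) + ∑ i, e (s i) * (v * b i)) := by
    intro s
    congr 1
    rw [mul_sub, mul_sum]
    have : ∀ i, v * (e (s i) * b i) = e (s i) * (v * b i) := fun i => by ring
    rw [sum_congr rfl (fun i _ => this i)]
    ring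
  rw [sum_congr rfl (fun s _ => h2 s), h1, prod_mul_distrib, prod_const, card_univ, Fintype.card_fin]
  have h3 : ∀ i, 0 ≤ Real.cos (v * b i) := fun i => by
    apply Real.cos_nonneg_of_mem_Icc
    have h := abs_le.1 (hb i)
    have hp := Real.pi_gt_three
    constructor <;> linarith [h.1, h.2]
  have h4 : ∏ i, Real.cos (v * b i) ≤ Real.exp (-(v ^ 2 / 5)) := by
    have h5 : ∏ i, Real.cos (v * b i) ≤ ∏ i, Real.exp (-((v * b i) ^ 2 / 5)) :=
      prod_le_prod (fun i _ => h3 i) (fun i _ => cos_le (hb i))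
    refine h5.trans ?_
    rw [← Real.exp_sum]
    apply Real.exp_le_exp.2
    have h6 : ∑ i, -((v * b i) ^ 2 / 5) = -(v ^ 2 / 5 * ∑ i, b i ^ 2) := by
      rw [sum_neg_distrib, mul_sum]
      congr 1
      apply sum_congr rfl
      intro i _
      ring
    rw [h6]
    have : 0 ≤ v ^ 2 / 5 := by positivity
    nlinarith
  have h5 : 0 ≤ ∏ i, Real.cos (v * b i) := prod_nonneg fun i _ => h3 i
  have h6 : Real.cos (-(v * c)) ≤ 1 := Real.cos_le_one _
  have h7 : Real.cos (-(v * c)) * (2 ^ n * ∏ i, Real.cos (v * b i)) ≤ 1 * (2 ^ n * ∏ i, Real.cos (v * b i)) :=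
    mul_le_mul_of_nonneg_right h6 (by positivity)
  refine h7.trans ?_
  rw [one_mul]
  exact mul_le_mul_of_nonneg_left h4 (by positivity)

theorem geom_le {r : ℝ} (h0 : 0 ≤ r) (h1 : r < 1) (n : ℕ) : ∑ i ∈ range n, r ^ i ≤ (1 - r)⁻¹ := by
  have h2 : (1 - r) * ∑ i ∈ range n, r ^ i = 1 - r ^ n := mul_neg_geom_sum r n
  have h3 : 0 < 1 - r := by linarith
  rw [← one_div, le_div_iff₀ h3, mul_comm, h2]
  have := pow_nonneg h0 n
  linarith

theorem row_le {r : ℝ} (h0 : 0 ≤ r) (h1 : r < 1) (M j : ℕ) (hj : j < M) :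
    ∑ k ∈ range M, r ^ ((j : ℤ) - k).natAbs ≤ 2 * (1 - r)⁻¹ := by
  rw [← sum_range_add_sum_Ico _ hj.le]
  have h2 : ∑ k ∈ range j, r ^ ((j : ℤ) - k).natAbs ≤ (1 - r)⁻¹ := by
    have h3 : ∑ k ∈ range j, r ^ ((j : ℤ) - k).natAbs = ∑ k ∈ range j, r ^ (j - 1 - k + 1) := by
      apply sum_congr rfl
      intro k hk
      have := mem_range.1 hk
      congr 1
      omega
    rw [h3, sum_range_reflect (fun i => r ^ (i + 1)) j]
    refine le_trans ?_ (geom_le h0 h1 (j + 1))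
    rw [sum_range_succ']
    have := pow_nonneg h0 0
    linarith
  have h3 : ∑ k ∈ Ico j M, r ^ ((j : ℤ) - k).natAbs ≤ (1 - r)⁻¹ := by
    rw [sum_Ico_eq_sum_range]
    refine le_trans (le_of_eq ?_) (geom_le h0 h1 (M - j))
    apply sum_congr rfl
    intro i _
    congr 1
    push_cast
    omega
  linarith

theorem sb : S_SB := by
  classical
  set r : ℝ := Real.exp (-(1 / 5)) with hr
  have hr0 : 0 < r := Real.exp_pos _
  have hr1 : r < 1 := by
    rw [hr]
    have h1 : Real.exp (-(1 / 5)) < Real.exp 0 := Real.exp_lt_exp.2 (by norm_num)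
    rwa [Real.exp_zero] at h1
  have hr2 : 0 < 1 - r := by linarith
  have hinv : 1 ≤ (1 - r)⁻¹ := by
    rw [one_le_inv₀ hr2]
    linarith
  refine ⟨16 * (1 - r)⁻¹, by linarith, ?_⟩
  intro n b c δ hδ hδ1 hb hV1 _
  set M : ℕ := ⌊1 / δ⌋₊ with hM
  have hM1 : 1 ≤ M := by
    rw [hM, Nat.one_le_floor_iff, le_div_iff₀ hδ]
    linarith
  have hMr : (1 : ℝ) ≤ M := by exact_mod_cast hM1
  have hMδ : (M : ℝ) ≤ 1 / δ := Nat.floor_le (by positivity)
  have hMδ' : (M : ℝ) * δ ≤ 1 := by rwa [le_div_iff₀ hδ] at hMδ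
  have hM2 : 1 ≤ 2 * (M : ℝ) * δ := by
    have h1 : 1 / δ < M + 1 := Nat.lt_floor_add_one _
    rw [div_lt_iff₀ hδ] at h1
    nlinarith
  set X : (Fin n → Bool) → ℝ := fun s => (∑ i, e (s i) * b i) - c with hX
  set A := Finset.univ.filter fun s : Fin n → Bool => |X s| ≤ δ with hA
  have hgoal : (Finset.univ.filter fun s : Fin n → Bool =>
        |(∑ i, (if s i then (1 : ℝ) else -1) * b i) - c| ≤ δ) = A := rfl
  rw [hgoal]
  set Q : (Fin n → Bool) → ℝ := fun s => (∑ j ∈ range M, Real.cos (j * X s)) ^ 2 +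
    (∑ j ∈ range M, Real.sin (j * X s)) ^ 2 with hQ
  have hQ0 : ∀ s, 0 ≤ Q s := fun s => by positivity
  have hQA : ∀ s ∈ A, ((M : ℝ) / 2) ^ 2 ≤ Q s := by
    intro s hs
    have hs' : |X s| ≤ δ := (mem_filter.1 hs).2
    have h1 : (M : ℝ) / 2 ≤ ∑ j ∈ range M, Real.cos (j * X s) := by
      have h2 : ∑ _j ∈ range M, (1 / 2 : ℝ) ≤ ∑ j ∈ range M, Real.cos (j * X s) := by
        apply sum_le_sum
        intro j hj
        have hj' : (j : ℝ) ≤ M := by exact_mod_cast (mem_range.1 hj).le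
        have h3 : |(j : ℝ) * X s| ≤ 1 := by
          rw [abs_mul, Nat.abs_cast]
          calc (j : ℝ) * |X s| ≤ M * δ := mul_le_mul hj' hs' (abs_nonneg _) (Nat.cast_nonneg _)
            _ ≤ 1 := hMδ'
        have h4 := Real.one_sub_sq_div_two_le_cos (x := (j : ℝ) * X s)
        have h5 : ((j : ℝ) * X s) ^ 2 ≤ 1 := by
          rw [← sq_abs]
          have := abs_nonneg ((j : ℝ) * X s)
          nlinarith
        linarith
      rw [sum_const, card_range, nsmul_eq_mul] at h2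
      linarith
    have h2 : ((M : ℝ) / 2) ^ 2 ≤ (∑ j ∈ range M, Real.cos (j * X s)) ^ 2 :=
      pow_le_pow_left₀ (by positivity) h1 2
    have h3 : 0 ≤ (∑ j ∈ range M, Real.sin (j * X s)) ^ 2 := sq_nonneg _
    show ((M : ℝ) / 2) ^ 2 ≤ (∑ j ∈ range M, Real.cos (j * X s)) ^ 2 +
      (∑ j ∈ range M, Real.sin (j * X s)) ^ 2
    linarith
  have h1 : (A.card : ℝ) * ((M : ℝ) / 2) ^ 2 ≤ ∑ s, Q s := by
    have h2 : ∑ _s ∈ A, ((M : ℝ) / 2) ^ 2 ≤ ∑ s ∈ A, Q s := sum_le_sum hQA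
    rw [sum_const, nsmul_eq_mul] at h2
    exact h2.trans (sum_le_sum_of_subset_of_nonneg (subset_univ _) fun s _ _ => hQ0 s)
  have h2 : ∑ s, Q s ≤ 2 ^ n * (M * (2 * (1 - r)⁻¹)) := by
    have h3 : ∀ s, Q s = ∑ j ∈ range M, ∑ k ∈ range M, Real.cos (((j : ℝ) - k) * X s) := by
      intro s
      show (∑ j ∈ range M, Real.cos (j * X s)) ^ 2 + (∑ j ∈ range M, Real.sin (j * X s)) ^ 2 = _
      rw [sq, sq, sum_mul_sum, sum_mul_sum, ← sum_add_distrib]
      apply sum_congr rfl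
      intro j _
      rw [← sum_add_distrib]
      apply sum_congr rfl
      intro k _
      rw [sub_mul, Real.cos_sub]
    rw [sum_congr rfl (fun s _ => h3 s), sum_comm]
    have h4 : ∀ j ∈ range M, (∑ s : Fin n → Bool, ∑ k ∈ range M, Real.cos (((j : ℝ) - k) * X s)) ≤
        2 ^ n * (2 * (1 - r)⁻¹) := by
      intro j hj
      have hj' := mem_range.1 hj
      rw [sum_comm]
      have h5 : ∀ k ∈ range M, (∑ s : Fin n → Bool, Real.cos (((j : ℝ) - k) * X s)) ≤
          2 ^ n * r ^ ((j : ℤ) - k).natAbs := by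
        intro k hk
        have hk' := mem_range.1 hk
        have habs : |(j : ℝ) - k| ≤ M := by
          rw [abs_le]
          have a1 : (j : ℝ) ≤ M := by exact_mod_cast hj'.le
          have a2 : (k : ℝ) ≤ M := by exact_mod_cast hk'.le
          have a3 : (0 : ℝ) ≤ j := Nat.cast_nonneg _
          have a4 : (0 : ℝ) ≤ k := Nat.cast_nonneg _
          constructor <;> linarith
        have h6 := cos_sum_le n b c ((j : ℝ) - k) (fun i => by
          rw [abs_mul]
          calc |(j : ℝ) - k| * |b i| ≤ M * δ := mul_le_mul habs (hb i) (abs_nonneg _) (Nat.cast_nonneg _)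
            _ ≤ 1 := hMδ') hV1
        refine h6.trans ?_
        apply mul_le_mul_of_nonneg_left _ (by positivity)
        rw [hr, ← Real.exp_nat_mul]
        apply Real.exp_le_exp.2
        have h7 : (((j : ℤ) - k).natAbs : ℝ) ≤ ((j : ℝ) - k) ^ 2 := by
          have h8 : (((j : ℤ) - k).natAbs : ℝ) = |(j : ℝ) - k| := by
            rw [Nat.cast_natAbs]
            push_cast
            rfl
          rw [h8, ← sq_abs]
          have h9 : ((j : ℤ) - k).natAbs ≤ ((j : ℤ) - k).natAbs ^ 2 := by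
            rcases Nat.eq_zero_or_pos ((j : ℤ) - k).natAbs with h | h
            · rw [h]
              norm_num
            · nlinarith
          have h10 : (((j : ℤ) - k).natAbs : ℝ) ≤ (((j : ℤ) - k).natAbs : ℝ) ^ 2 := by exact_mod_cast h9
          rwa [h8] at h10
        linarith
      refine (sum_le_sum h5).trans ?_
      rw [← mul_sum]
      exact mul_le_mul_of_nonneg_left (row_le hr0.le hr1 M j hj') (by positivity)
    refine (sum_le_sum h4).trans (le_of_eq ?_)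
    rw [sum_const, card_range, nsmul_eq_mul]
    ring
  -- conclusion
  have h3 : (A.card : ℝ) * ((M : ℝ) / 2) ^ 2 ≤ 2 ^ n * (M * (2 * (1 - r)⁻¹)) := h1.trans h2
  have h4 : (A.card : ℝ) * M ≤ 8 * (1 - r)⁻¹ * 2 ^ n := by
    have hMp : (0 : ℝ) < M := by linarith
    have h5 : (A.card : ℝ) * M * M ≤ 8 * (1 - r)⁻¹ * 2 ^ n * M := by
      have e1 : (A.card : ℝ) * ((M : ℝ) / 2) ^ 2 = (A.card : ℝ) * M * M / 4 := by ring
      rw [e1] at h3
      linarith
    exact le_of_mul_le_mul_right h5 hMp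
  have h5 : (A.card : ℝ) ≤ (A.card : ℝ) * (2 * (M : ℝ) * δ) := by
    have := Nat.cast_nonneg (α := ℝ) A.card
    nlinarith
  have h6 : (A.card : ℝ) * (2 * (M : ℝ) * δ) ≤ 2 * δ * (8 * (1 - r)⁻¹ * 2 ^ n) := by
    have e1 : (A.card : ℝ) * (2 * (M : ℝ) * δ) = 2 * δ * ((A.card : ℝ) * M) := by ring
    rw [e1]
    exact mul_le_mul_of_nonneg_left h4 (by positivity)
  have e1 : 2 * δ * (8 * (1 - r)⁻¹ * 2 ^ n) = 16 * (1 - r)⁻¹ * δ * 2 ^ n := by ring
  linarith

end Pool.Agent.Q190.IR.SB
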